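import Pool.Agent.Helper28.WK.StB

/-!
# Project WK, module UIp: symbols invariant under the scaling by p are constant
-/

set_option autoImplicit false

open Pool.Agent.Helper14.CV Pool.Agent.Helper28.WK
open scoped MatrixGroups

namespace Pool.Agent.Helper82.WK

private theorem inv_mul {R : Type} [AddCommGroup R] {χ : ℤ → ℤ → R} {a b c d a' b' c' d' : ℤ}
    (hd : a * d - b * c = 1) (h : EqC (act a b c d χ) χ) (h' : EqC (act a' b' c' d' χ) χ) :
    EqC (act (a' * a + b' * c) (a' * b + b' * d) (c' * a + d' * c) (c' * b + d' * d) χ) χ := by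
  rw [← act_act]
  exact (h'.act (by rw [hd]; exact one_ne_zero)).trans h

private theorem inv_inv {R : Type} [AddCommGroup R] {χ : ℤ → ℤ → R} {a b c d : ℤ}
    (hd : a * d - b * c = 1) (h : EqC (act a b c d χ) χ) : EqC (act d (-b) (-c) a χ) χ := by
  have hd' : d * a - -b * -c = 1 := by linarith
  have h1 : EqC (act d (-b) (-c) a (act a b c d χ)) (act d (-b) (-c) a χ) :=
    h.act (by rw [hd']; exact one_ne_zero)
  have h2 : act d (-b) (-c) a (act a b c d χ) = χ := by
    rw [act_act]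
    have e1 : a * d + b * -c = 1 := by linarith
    have e2 : a * -b + b * a = 0 := by ring
    have e3 : c * d + d * -c = 0 := by ring
    have e4 : c * -b + d * a = 1 := by linarith
    rw [e1, e2, e3, e4, act_one]
  rw [h2] at h1
  exact h1.symm

/-- All unimodular matrices are obtained from the two elementary ones. -/
private theorem all_of_gens {R : Type} [AddCommGroup R] {χ : ℤ → ℤ → R}
    (hT : EqC (act 1 1 0 1 χ) χ) (hL : EqC (act 1 0 1 1 χ) χ) (a b c d : ℤ)
    (hd : a * d - b * c = 1) : EqC (act a b c d χ) χ := by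
  let H : Subgroup SL(2, ℤ) :=
    { carrier := {M | EqC (act (M 0 0) (M 0 1) (M 1 0) (M 1 1) χ) χ}
      mul_mem' := by
        intro M N hM hN
        have hN1 : N 0 0 * N 1 1 - N 0 1 * N 1 0 = 1 := by
          rw [← Matrix.det_fin_two, N.2]
        have h := inv_mul hN1 hN hM
        have e : ∀ i j : Fin 2, (M * N) i j = M i 0 * N 0 j + M i 1 * N 1 j := by
          intro i j
          rw [Matrix.SpecialLinearGroup.coe_mul, Matrix.mul_apply, Fin.sum_univ_two]
        show EqC (act ((M * N) 0 0) ((M * N) 0 1) ((M * N) 1 0) ((M * N) 1 1) χ) χ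
        rw [e, e, e, e]
        exact h
      one_mem' := by
        show EqC (act ((1 : SL(2, ℤ)) 0 0) ((1 : SL(2, ℤ)) 0 1) ((1 : SL(2, ℤ)) 1 0)
          ((1 : SL(2, ℤ)) 1 1) χ) χ
        simp only [Matrix.SpecialLinearGroup.coe_one, Matrix.one_apply_eq, ne_eq, Fin.isValue,
          zero_ne_one, not_false_eq_true, Matrix.one_apply_ne, one_ne_zero, act_one]
        exact EqC.refl _
      inv_mem' := by
        intro M hM
        have hM1 : M 0 0 * M 1 1 - M 0 1 * M 1 0 = 1 := by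
          rw [← Matrix.det_fin_two, M.2]
        have h := inv_inv hM1 hM
        show EqC (act ((M⁻¹ : SL(2, ℤ)) 0 0) ((M⁻¹ : SL(2, ℤ)) 0 1) ((M⁻¹ : SL(2, ℤ)) 1 0)
          ((M⁻¹ : SL(2, ℤ)) 1 1) χ) χ
        rw [Matrix.SpecialLinearGroup.coe_inv, Matrix.adjugate_fin_two]
        exact h }
  have hTm : ModularGroup.T ∈ H := by
    show EqC (act ((ModularGroup.T : SL(2, ℤ)) 0 0) ((ModularGroup.T : SL(2, ℤ)) 0 1)
      ((ModularGroup.T : SL(2, ℤ)) 1 0) ((ModularGroup.T : SL(2, ℤ)) 1 1) χ) χ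
    exact hT
  have hSm : ModularGroup.S ∈ H := by
    show EqC (act ((ModularGroup.S : SL(2, ℤ)) 0 0) ((ModularGroup.S : SL(2, ℤ)) 0 1)
      ((ModularGroup.S : SL(2, ℤ)) 1 0) ((ModularGroup.S : SL(2, ℤ)) 1 1) χ) χ
    have h1 : EqC (act 1 (-1) (-0) 1 χ) χ := inv_inv (by norm_num) hT
    have h2 := inv_mul (by norm_num) hL h1
    have h3 := inv_mul (by norm_num) h1 h2
    norm_num at h3
    exact h3
  have htop : (⊤ : Subgroup SL(2, ℤ)) ≤ H := by
    rw [← SpecialLinearGroup.SL2Z_generators, Subgroup.closure_le]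
    intro x hx
    rcases hx with rfl | rfl
    · exact hSm
    · exact hTm
  have hdet : (!![a, b; c, d] : Matrix (Fin 2) (Fin 2) ℤ).det = 1 := by
    rw [Matrix.det_fin_two_of]
    exact hd
  have hmem : (⟨!![a, b; c, d], hdet⟩ : SL(2, ℤ)) ∈ H := htop (Subgroup.mem_top _)
  exact hmem

theorem hUIp : StUIp := by
  intro far p hp R _ r s χ hχ hu
  have hp0 : (p : ℤ) ≠ 0 := by
    have : p ≠ 0 := by omega
    exact_mod_cast this
  have detu : (p : ℤ) * 1 - 0 * 0 ≠ 0 := by simpa using hp0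
  have st1 : ∀ b : ℤ, EqC (act 1 (p * b) 0 1 χ) χ → EqC (act 1 b 0 1 χ) χ := by
    intro b hb
    have e1 : act 1 b 0 1 (act p 0 0 1 χ) = act p 0 0 1 (act 1 (p * b) 0 1 χ) := by
      rw [act_act, act_act]
      congr 1 <;> ring
    have h1 : EqC (act 1 b 0 1 χ) (act 1 b 0 1 (act p 0 0 1 χ)) := hu.symm.act (by norm_num)
    rw [e1] at h1
    exact h1.trans ((hb.act detu).trans hu)
  have st2 : ∀ c : ℤ, EqC (act 1 0 (p * c) 1 χ) χ → EqC (act 1 0 c 1 χ) χ := by
    intro c hc
    have e1 : act 1 0 (p * c) 1 (act p 0 0 1 χ) = act p 0 0 1 (act 1 0 c 1 χ) := by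
      rw [act_act, act_act]
      congr 1 <;> ring
    have h1 : EqC (act p 0 0 1 (act 1 0 c 1 χ)) (act p 0 0 1 χ) := by
      rw [← e1]
      exact (hu.act (by norm_num)).trans (hc.trans hu.symm)
    obtain ⟨k, hk⟩ := h1
    have hF : Homog (act 1 0 c 1 χ) := hχ.1.act (by norm_num)
    refine ⟨k, fun x y hxy => ?_⟩
    have hxy' : x ≠ 0 ∨ (p : ℤ) * y ≠ 0 := by
      rcases hxy with hx | hy
      · exact Or.inl hx
      · exact Or.inr (mul_ne_zero hp0 hy)
    have h2 := hk x (p * y) hxy'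
    have e2 : act p 0 0 1 (act 1 0 c 1 χ) x (p * y) = act 1 0 c 1 χ x y := by
      rw [← hF p x y hp0 hxy]
      show act 1 0 c 1 χ (p * x + 0 * (p * y)) (0 * x + 1 * (p * y)) = _
      congr 1 <;> ring
    have e3 : act p 0 0 1 χ x (p * y) = χ x y := by
      rw [← hχ.1 p x y hp0 hxy]
      show χ (p * x + 0 * (p * y)) (0 * x + 1 * (p * y)) = _
      congr 1 <;> ring
    rw [e2, e3] at h2
    exact h2
  have hT : EqC (act 1 1 0 1 χ) χ := by
    have key : ∀ k : ℕ, EqC (act 1 ((p : ℤ) ^ k) 0 1 χ) χ → EqC (act 1 1 0 1 χ) χ := by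
      intro k
      induction k with
      | zero => intro h; simpa using h
      | succ k ih =>
        intro h
        rw [pow_succ'] at h
        exact ih (st1 _ h)
    exact key r (hχ.2 1 ((p : ℤ) ^ r) 0 1 (by ring) (dvd_refl _) (dvd_zero _))
  have hL : EqC (act 1 0 1 1 χ) χ := by
    have key : ∀ k : ℕ, EqC (act 1 0 ((p : ℤ) ^ k) 1 χ) χ → EqC (act 1 0 1 1 χ) χ := by
      intro k
      induction k with
      | zero => intro h; simpa using h
      | succ k ih =>
        intro h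
        rw [pow_succ'] at h
        exact ih (st2 _ h)
    exact key s (hχ.2 1 0 ((p : ℤ) ^ s) 1 (by ring) (dvd_zero _) (dvd_refl _))
  have hc : χ 1 0 = χ 0 1 := by
    have h1 := hT.diff (p := 0) (q := 1) (p' := 1) (q' := 0) (Or.inr one_ne_zero)
      (Or.inl one_ne_zero)
    have h2 := hL.diff (p := 0) (q := 1) (p' := 1) (q' := 0) (Or.inr one_ne_zero)
      (Or.inl one_ne_zero)
    have e1 : act 1 1 0 1 χ 0 1 - act 1 1 0 1 χ 1 0 = χ 1 1 - χ 1 0 := by
      simp [act]
    have e2 : act 1 0 1 1 χ 0 1 - act 1 0 1 1 χ 1 0 = χ 0 1 - χ 1 1 := by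
      simp [act]
    rw [e1] at h1
    rw [e2] at h2
    have h3 : χ 1 1 = χ 0 1 := by
      have := sub_left_inj.1 h1
      exact this
    rw [h3, sub_self] at h2
    exact (sub_eq_zero.1 h2.symm).symm
  refine far R _ χ hχ.1 fun a b c d hd => ?_
  have h := (all_of_gens hT hL a b c d hd).diff (p := 1) (q := 0) (p' := 0) (q' := 1)
    (Or.inl one_ne_zero) (Or.inr one_ne_zero)
  have e1 : act a b c d χ 1 0 - act a b c d χ 0 1 = χ a c - χ b d := by
    simp [act]
  rw [e1, hc, sub_self] at h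
  exact sub_eq_zero.1 h

end Pool.Agent.Helper82.WK
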