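import Pool.Agent.Helper14.WK.StA

/-!
# Project WK, module KB1: a bound for the form and continuity of the vertical integral
-/

set_option autoImplicit false

open UpperHalfPlane CongruenceSubgroup MeasureTheory
open scoped MatrixGroups

namespace Pool.Agent.Helper82.WK

open Pool.Agent.Helper14.WK
open Pool.Agent.Helper14.CV (G0)

private theorem fz_cont {N : ℕ} {k : ℤ} (f : CuspForm (G0 N) k) :
    ContinuousOn (fzK f) {z : ℂ | 0 < z.im} := by
  have h := UpperHalfPlane.mdifferentiable_iff.mp (CuspFormClass.holo f)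
  exact h.continuousOn

private theorem fz_apply {N : ℕ} {k : ℤ} (f : CuspForm (G0 N) k) {x y : ℝ} (hy : 0 < y) :
    ∃ τ : ℍ, τ.im = y ∧ fzK f (x + y * Complex.I) = f τ := by
  have him : (0 : ℝ) < ((x : ℂ) + y * Complex.I).im := by simpa using hy
  refine ⟨⟨(x : ℂ) + y * Complex.I, him⟩, ?_, ?_⟩
  · show ((x : ℂ) + y * Complex.I).im = y
    simp
  · unfold fzK
    rw [UpperHalfPlane.ofComplex_apply_of_im_pos him]

private theorem bound {N : ℕ} [NeZero N] (A : ℕ) (hA : 1 ≤ A) (f : CuspForm (G0 N) (2 * A + 2)) :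
    ∃ K c : ℝ, 0 < c ∧ ∀ x y : ℝ, 0 < y →
      ‖fzK f (x + y * Complex.I) * (y : ℂ) ^ (2 * A)‖ ≤ K * Real.exp (-c * y) := by
  obtain ⟨C, hC⟩ := CuspFormClass.exists_bound f
  obtain ⟨c, hc, hO⟩ := CuspFormClass.exp_decay_atImInfty' f
  obtain ⟨D, hD⟩ := hO.bound
  rw [Filter.Eventually, UpperHalfPlane.atImInfty_mem] at hD
  obtain ⟨Y, hY⟩ := hD
  set Y1 : ℝ := max Y 1 with hY1
  have hY1' : (1 : ℝ) ≤ Y1 := le_max_right _ _
  have hY1p : 0 < Y1 := by linarith
  have hc2 : 0 < c / 2 := by linarith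
  refine ⟨|C| * Y1 ^ (A - 1) * Real.exp (c / 2 * Y1) + |D| * ((2 * A).factorial * (2 / c) ^ (2 * A)),
    c / 2, hc2, ?_⟩
  intro x y hy
  obtain ⟨τ, hτ, hfτ⟩ := fz_apply f (x := x) hy
  rw [hfτ, norm_mul, norm_pow, Complex.norm_real, Real.norm_of_nonneg hy.le]
  have hn1 : 0 ≤ |C| * Y1 ^ (A - 1) * Real.exp (c / 2 * Y1) := by positivity
  have hn2 : 0 ≤ |D| * ((2 * A).factorial * (2 / c) ^ (2 * A)) := by positivity
  rcases le_total y Y1 with hle | hge
  · -- small height
    have h1 := hC τ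
    rw [hτ] at h1
    have e1 : (((2 * (A : ℤ) + 2 : ℤ) : ℝ) / 2) = ((A + 1 : ℕ) : ℝ) := by push_cast; ring
    rw [e1, Real.rpow_natCast] at h1
    have h2 : ‖f τ‖ ≤ |C| / y ^ (A + 1) :=
      h1.trans (div_le_div_of_nonneg_right (le_abs_self C) (by positivity))
    have h3 : ‖f τ‖ * y ^ (2 * A) ≤ |C| * Y1 ^ (A - 1) := by
      calc ‖f τ‖ * y ^ (2 * A) ≤ |C| / y ^ (A + 1) * y ^ (2 * A) :=
            mul_le_mul_of_nonneg_right h2 (by positivity)
        _ = |C| * y ^ (A - 1) := by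
            have e2 : 2 * A = (A + 1) + (A - 1) := by omega
            have e3 : y ^ (2 * A) = y ^ (A + 1) * y ^ (A - 1) := by rw [← pow_add, ← e2]
            rw [e3, ← mul_assoc, div_mul_cancel₀ _ (by positivity)]
        _ ≤ |C| * Y1 ^ (A - 1) :=
            mul_le_mul_of_nonneg_left (pow_le_pow_left₀ hy.le hle _) (abs_nonneg C)
    have h4 : (1 : ℝ) ≤ Real.exp (c / 2 * Y1) * Real.exp (-(c / 2) * y) := by
      rw [← Real.exp_add, ← Real.exp_zero]
      apply Real.exp_le_exp.mpr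
      nlinarith
    calc ‖f τ‖ * y ^ (2 * A) ≤ |C| * Y1 ^ (A - 1) * 1 := by rw [mul_one]; exact h3
      _ ≤ |C| * Y1 ^ (A - 1) * (Real.exp (c / 2 * Y1) * Real.exp (-(c / 2) * y)) :=
          mul_le_mul_of_nonneg_left h4 (by positivity)
      _ = |C| * Y1 ^ (A - 1) * Real.exp (c / 2 * Y1) * Real.exp (-(c / 2) * y) := by ring
      _ ≤ _ := mul_le_mul_of_nonneg_right (le_add_of_nonneg_right hn2) (Real.exp_pos _).le
  · -- large height
    have h1 : ‖f τ‖ ≤ D * ‖Real.exp (-c * τ.im)‖ := hY τ (by rw [hτ]; exact (le_max_left _ _).trans hge)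
    rw [hτ, Real.norm_of_nonneg (Real.exp_pos _).le] at h1
    have h2 : ‖f τ‖ ≤ |D| * Real.exp (-c * y) :=
      h1.trans (mul_le_mul_of_nonneg_right (le_abs_self D) (Real.exp_pos _).le)
    have h3 : y ^ (2 * A) ≤ (2 * A).factorial * (2 / c) ^ (2 * A) * Real.exp (c / 2 * y) := by
      have h4 := Real.pow_div_factorial_le_exp (c / 2 * y) (by positivity) (2 * A)
      have hf : (0 : ℝ) < (2 * A).factorial := by exact_mod_cast Nat.factorial_pos _
      rw [div_le_iff₀ hf, mul_pow] at h4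
      have h5 : y ^ (2 * A) = (2 / c) ^ (2 * A) * ((c / 2) ^ (2 * A) * y ^ (2 * A)) := by
        rw [← mul_assoc, ← mul_pow]
        have : 2 / c * (c / 2) = 1 := by field_simp
        rw [this, one_pow, one_mul]
      rw [h5]
      calc (2 / c) ^ (2 * A) * ((c / 2) ^ (2 * A) * y ^ (2 * A))
          ≤ (2 / c) ^ (2 * A) * (Real.exp (c / 2 * y) * (2 * A).factorial) :=
            mul_le_mul_of_nonneg_left h4 (by positivity)
        _ = _ := by ring
    calc ‖f τ‖ * y ^ (2 * A) ≤ (|D| * Real.exp (-c * y)) *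
          ((2 * A).factorial * (2 / c) ^ (2 * A) * Real.exp (c / 2 * y)) :=
          mul_le_mul h2 h3 (by positivity) (by positivity)
      _ = |D| * ((2 * A).factorial * (2 / c) ^ (2 * A)) *
          (Real.exp (-c * y) * Real.exp (c / 2 * y)) := by ring
      _ = |D| * ((2 * A).factorial * (2 / c) ^ (2 * A)) * Real.exp (-(c / 2) * y) := by
          rw [← Real.exp_add]
          congr 2
          ring
      _ ≤ _ := mul_le_mul_of_nonneg_right (le_add_of_nonneg_left hn1) (Real.exp_pos _).le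

theorem hKB1 : SKB1 := by
  intro N _ A f hA
  obtain ⟨K, c, hc, hb⟩ := bound A hA f
  have hint : IntegrableOn (fun y : ℝ => K * Real.exp (-c * y)) (Set.Ioi 0) :=
    (exp_neg_integrableOn_Ioi 0 hc).const_mul K
  refine ⟨⟨fun y => K * Real.exp (-c * y), hint, hb⟩, ?_⟩
  have hcont : ∀ g : ℝ → ℂ, Continuous g → ∀ s : Set ℝ, (∀ t ∈ s, 0 < (g t).im) →
      ContinuousOn (fun t => fzK f (g t)) s := by
    intro g hg s hs
    exact (fz_cont f).comp hg.continuousOn (fun t ht => hs t ht)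
  unfold HK
  refine continuous_of_dominated (bound := fun y => K * Real.exp (-c * y)) ?_ ?_ hint ?_
  · intro x
    refine ContinuousOn.aestronglyMeasurable ?_ measurableSet_Ioi
    refine ContinuousOn.mul ?_ (by fun_prop)
    refine hcont (fun y => (x : ℂ) + y * Complex.I) (by fun_prop) _ ?_
    intro t ht
    simpa using ht
  · intro x
    rw [ae_restrict_iff' measurableSet_Ioi]
    exact Filter.Eventually.of_forall fun y hy => hb x y hy
  · rw [ae_restrict_iff' measurableSet_Ioi]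
    refine Filter.Eventually.of_forall fun y hy => ?_
    refine Continuous.mul ?_ continuous_const
    rw [← continuousOn_univ]
    refine hcont (fun x => (x : ℂ) + y * Complex.I) (by fun_prop) _ ?_
    intro t _
    have : (0 : ℝ) < y := hy
    simpa using this

end Pool.Agent.Helper82.WK
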