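import Pool.Agent.Helper28.WK.StA

/-!
# Project WK, module TA (Theorem A)
-/

set_option autoImplicit false

open Pool.Agent.Helper14.CV Pool.Agent.Helper28.WK

namespace Pool.Agent.Helper82.WK

section Maps

variable {R S : Type} [AddCommGroup R] [AddCommGroup S]

private theorem eqC_map (f : R →+ S) {G H : ℤ → ℤ → R} (h : EqC G H) :
    EqC (fun p q => f (G p q)) (fun p q => f (H p q)) := by
  obtain ⟨c, hc⟩ := h
  exact ⟨f c, fun p q hpq => by simp only [hc p q hpq, map_add]⟩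

private theorem sym_map (f : R →+ S) {r s : ℕ} {G : ℤ → ℤ → R} (h : Sym r s G) :
    Sym r s (fun p q => f (G p q)) := by
  refine ⟨fun k p q hk hpq => ?_, fun a b c d hd hb hc => ?_⟩
  · show f (G (k * p) (k * q)) = f (G p q)
    rw [h.1 k p q hk hpq]
  · exact eqC_map f (h.2 a b c d hd hb hc)

private theorem tl_map (f : R →+ S) (l : ℕ) (m : ℤ) (G : ℤ → ℤ → R) :
    Tl l m (fun p q => f (G p q)) = fun p q => f (Tl l m G p q) := by
  funext p q
  simp only [Tl, map_add, map_sum]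

private theorem tl_iter_map (f : R →+ S) (l : ℕ) (m : ℤ) (i : ℕ) (G : ℤ → ℤ → R) :
    (Tl l m)^[i] (fun p q => f (G p q)) = fun p q => f (((Tl l m)^[i] G) p q) := by
  induction i generalizing G with
  | zero => rfl
  | succ i ih =>
    rw [Function.iterate_succ_apply, Function.iterate_succ_apply, tl_map, ih]

private theorem ev_map (f : R →+ S) (m : ℤ) (G : ℤ → ℤ → R) (i j : ℕ) :
    ev m (fun p q => f (G p q)) i j = f (ev m G i j) := by
  simp only [ev, tl_iter_map, map_sub]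

end Maps

private theorem exists_inv (M : ℕ) {d : ℤ} (hd : Odd d) :
    ∃ e : ℤ, ((e : ℤ) : ZMod (2 ^ M)) * ((d : ℤ) : ZMod (2 ^ M)) = 1 := by
  have h1 : IsCoprime d ((2 : ℤ) ^ M) := by
    apply IsCoprime.pow_right
    rw [Int.isCoprime_iff_gcd_eq_one]
    exact Int.isCoprime_iff_gcd_eq_one.1 (Int.isCoprime_two_right.2 hd)
  obtain ⟨a, b, hab⟩ := h1
  refine ⟨a, ?_⟩
  have h2 := congrArg (fun x : ℤ => (x : ZMod (2 ^ M))) hab
  simp only [Int.cast_add, Int.cast_mul, Int.cast_pow, Int.cast_ofNat, Int.cast_one] at h2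
  have h3 : ((2 : ZMod (2 ^ M)) ^ M) = 0 := by
    have := ZMod.natCast_self (2 ^ M)
    exact_mod_cast this
  rw [h3, mul_zero, add_zero] at h2
  exact h2

theorem hTA : StTA := by
  intro nrm hev com crm kk int m M g hm hg hW hs hg0
  obtain ⟨d, G1, hd, hG1, hG10, hG1g⟩ := crm m M g hm hg hg0
  -- the integral symbol
  set G2 : ℤ → ℤ → ℤ := (G1 - act 0 (-1) (2 ^ m) 0 G1) +
    act (-1) 0 0 1 (G1 - act 0 (-1) (2 ^ m) 0 G1) with hG2
  -- complexification
  set GC : ℤ → ℤ → ℂ := fun p q => ((G1 p q : ℤ) : ℂ) with hGC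
  set HC : ℤ → ℤ → ℂ := GC - act 0 (-1) (2 ^ m) 0 GC with hHC
  have e1 : (fun p q => ((G2 p q : ℤ) : ℂ)) = HC + act (-1) 0 0 1 HC := by
    funext p q
    simp only [hG2, hHC, hGC, act, Pi.add_apply, Pi.sub_apply, Int.cast_add, Int.cast_sub]
  have sGC : Sym 0 m GC := sym_map (Int.castAddHom ℂ) hG1
  have evGC : ∀ i j : ℕ, ev 1 GC i j = 0 := fun i j => by
    have := ev_map (Int.castAddHom ℂ) 1 G1 i j
    rw [hG10 i j, map_zero] at this
    exact this
  have hm2 : 2 ≤ m := by omega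
  have hm3 : 3 ≤ m := by omega
  have detW : (0 : ℤ) * 0 - (-1) * 2 ^ m ≠ 0 := by
    have : (2 : ℤ) ^ m ≠ 0 := by positivity
    simpa using this
  have detS : (-1 : ℤ) * 1 - 0 * 0 ≠ 0 := by norm_num
  have sWGC : Sym 0 m (act 0 (-1) (2 ^ m) 0 GC) := (nrm m GC hm2 sGC).1
  have sHC : Sym 0 m HC := by
    rw [hHC, sub_eq_add_neg]
    exact sGC.add sWGC.neg
  have sSHC : Sym 0 m (act (-1) 0 0 1 HC) := (nrm m HC hm2 sHC).2.2.2
  have hWH : EqC (act 0 (-1) (2 ^ m) 0 HC) (-HC) := by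
    have h1 : EqC (act 0 (-1) (2 ^ m) 0 (act 0 (-1) (2 ^ m) 0 GC)) GC := (com m GC hm3 sGC).2.2.1
    have h2 : act 0 (-1) (2 ^ m) 0 HC =
        act 0 (-1) (2 ^ m) 0 GC - act 0 (-1) (2 ^ m) 0 (act 0 (-1) (2 ^ m) 0 GC) := rfl
    have h3 : -HC = act 0 (-1) (2 ^ m) 0 GC - GC := by rw [hHC, neg_sub]
    rw [h2, h3]
    exact (EqC.refl _).sub h1
  have hWSH : EqC (act 0 (-1) (2 ^ m) 0 (act (-1) 0 0 1 HC)) (-(act (-1) 0 0 1 HC)) := by
    have h1 := (com m HC hm3 sHC).2.2.2.2.2.2.2.2.2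
    exact h1.trans (hWH.act detS)
  have hSSH : EqC (act (-1) 0 0 1 (act (-1) 0 0 1 HC)) HC := (com m HC hm3 sHC).2.2.2.1
  have evHC : ∀ i j : ℕ, ev 1 HC i j = 0 := fun i j => by
    rw [hHC, sub_eq_add_neg, ev_add, ev_neg, (hev m GC hm2 sGC i j).1, evGC i j]
    simp
  obtain ⟨ψ, sψ, hψ⟩ := kk m (HC + act (-1) 0 0 1 HC) hm3 (sHC.add sSHC)
    (by
      rw [act_add, neg_add]
      exact hWH.add hWSH)
    (by
      rw [act_add, add_comm HC]
      exact (EqC.refl _).add hSSH)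
    (fun i j => by rw [ev_add, (hev m HC hm2 sHC i j).2, evHC i j, add_zero])
  rw [← e1] at hψ
  obtain ⟨ψ', sψ', hψ'⟩ := int (m - 1) ψ G2 sψ hψ
  -- reduction
  obtain ⟨e, he⟩ := exists_inv M hd
  let c : ℤ →+ ZMod (2 ^ M) := Int.castAddHom (ZMod (2 ^ M))
  set g1 : ℤ → ℤ → ZMod (2 ^ M) := fun p q => ((G1 p q : ℤ) : ZMod (2 ^ M)) with hg1
  set ψm : ℤ → ℤ → ZMod (2 ^ M) := fun p q => ((ψ' p q : ℤ) : ZMod (2 ^ M)) with hψm
  have sψm : Sym 0 (m - 1) ψm := sym_map c sψ'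
  have e2 : EqC (act 2 0 0 1 ψm - ψm)
      ((g1 - act 0 (-1) (2 ^ m) 0 g1) + act (-1) 0 0 1 (g1 - act 0 (-1) (2 ^ m) 0 g1)) := by
    have h1 := eqC_map c hψ'
    have h2 : (fun p q => c ((act 2 0 0 1 ψ' - ψ') p q)) = act 2 0 0 1 ψm - ψm := by
      funext p q
      simp only [c, hψm, act, Pi.sub_apply, Int.coe_castAddHom, Int.cast_sub]
    have h3 : (fun p q => c (G2 p q)) =
        ((g1 - act 0 (-1) (2 ^ m) 0 g1) + act (-1) 0 0 1 (g1 - act 0 (-1) (2 ^ m) 0 g1)) := by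
      funext p q
      simp only [c, hg1, hG2, act, Pi.add_apply, Pi.sub_apply, Int.coe_castAddHom, Int.cast_add,
        Int.cast_sub]
    rw [h2, h3] at h1
    exact h1
  have h4 : EqC (g1 - act 0 (-1) (2 ^ m) 0 g1) (d • g + d • g) := by
    have h5 : EqC (act 0 (-1) (2 ^ m) 0 g1) (-(d • g)) := by
      refine (hG1g.act detW).trans ?_
      rw [act_smul, ← smul_neg]
      exact hW.smul d
    have h6 := hG1g.sub h5
    rw [sub_neg_eq_add] at h6
    exact h6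
  have h7 : EqC (act (-1) 0 0 1 (g1 - act 0 (-1) (2 ^ m) 0 g1)) (d • g + d • g) := by
    refine (h4.act detS).trans ?_
    rw [act_add, act_smul]
    exact (hs.smul d).add (hs.smul d)
  have h8 : EqC (act 2 0 0 1 ψm - ψm) ((d • g + d • g) + (d • g + d • g)) :=
    e2.trans (h4.add h7)
  refine ⟨e • ψm, sψm.smul e, ?_⟩
  have h9 := h8.smul e
  rw [smul_sub, ← act_smul] at h9
  refine h9.trans (EqC.of_eq fun p q _ => ?_)
  have h10 : (e • (d • g + d • g + (d • g + d • g))) p q =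
      (e : ZMod (2 ^ M)) * (((d : ℤ) : ZMod (2 ^ M)) * g p q + (d : ZMod (2 ^ M)) * g p q +
        ((d : ZMod (2 ^ M)) * g p q + (d : ZMod (2 ^ M)) * g p q)) := by
    simp only [← zsmul_eq_mul]
    rfl
  have h11 : ((4 : ℤ) • g) p q = 4 * g p q := by
    have : ((4 : ℤ) • g) p q = (4 : ℤ) • (g p q) := rfl
    rw [this, zsmul_eq_mul]
    norm_num
  rw [h10, h11]
  linear_combination (4 * g p q) * he

end Pool.Agent.Helper82.WK
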